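import Mathlib
import Pool.Agent.H892.KT.Stm

/-!
# Birational germs: improving the approximation by one order
-/

set_option autoImplicit false

open Filter Topology Set Asymptotics
open Pool.Agent.H892.KT

namespace Pool.Agent.H335.KT

lemma zero_target {e : OpenPartialHomeomorph (ℂ × ℂ) (ℂ × ℂ)} (he : BG e) :
    (0 : ℂ × ℂ) ∈ e.target := by
  have h := e.map_source he.mem
  rwa [he.zero] at h

lemma symm_zero {e : OpenPartialHomeomorph (ℂ × ℂ) (ℂ × ℂ)} (he : BG e) : e.symm 0 = 0 := by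
  have h := e.left_inv he.mem
  rwa [he.zero] at h

lemma bigO_self {f : ℂ × ℂ → ℂ × ℂ} {U : Set (ℂ × ℂ)} (hU : IsOpen U) (h0 : (0 : ℂ × ℂ) ∈ U)
    (hf : DifferentiableOn ℂ f U) (hf0 : f 0 = 0) : f =O[𝓝 0] fun y => y := by
  have h1 : DifferentiableAt ℂ f 0 := hf.differentiableAt (hU.mem_nhds h0)
  have h2 := h1.hasFDerivAt.isBigO_sub
  simpa only [hf0, sub_zero] using h2

lemma tendsto_self {f : ℂ × ℂ → ℂ × ℂ} {U : Set (ℂ × ℂ)} (hU : IsOpen U)
    (h0 : (0 : ℂ × ℂ) ∈ U) (hf : DifferentiableOn ℂ f U) (hf0 : f 0 = 0) :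
    Tendsto f (𝓝 0) (𝓝 0) := by
  have h1 : ContinuousAt f 0 := (hf.differentiableAt (hU.mem_nhds h0)).continuousAt
  have h2 := h1.tendsto
  rwa [hf0] at h2

/-- an estimate of order `k` is stable under composition with a germ which fixes the origin -/
lemma comp_bigO {f u : ℂ × ℂ → ℂ × ℂ} {U : Set (ℂ × ℂ)} (hU : IsOpen U)
    (h0 : (0 : ℂ × ℂ) ∈ U) (hf : DifferentiableOn ℂ f U) (hf0 : f 0 = 0) (k : ℕ)
    (hu : u =O[𝓝 0] fun y => ‖y‖ ^ k) : (fun z => u (f z)) =O[𝓝 0] fun z => ‖z‖ ^ k := by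
  have h1 : (fun z => u (f z)) =O[𝓝 0] fun z => ‖f z‖ ^ k :=
    hu.comp_tendsto (tendsto_self hU h0 hf hf0)
  exact h1.trans ((bigO_self hU h0 hf hf0).norm_norm.pow k)

theorem t_JSTEP (h0 : S_ANA) (h1 : S_JTAY) (h2 : S_JALL) (h3 : S_JCOMP) : S_JSTEP := by
  intro k σ hk hσ e he hO
  have ht := zero_target he
  have hs := symm_zero he
  have hψ : AnalyticAt ℂ (fun z => σ (e.symm z)) 0 := by
    have h4 : AnalyticAt ℂ e.symm 0 := h0 e.target e.symm e.open_target he.diff' 0 ht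
    refine AnalyticAt.fun_comp ?_ h4
    rw [hs]
    exact hσ
  have hφ : AnalyticAt ℂ (fun z => σ (e.symm z) - z) 0 := hψ.sub analyticAt_id
  -- the order of the difference
  have hord : (fun z => σ (e.symm z) - z) =O[𝓝 0] fun z => ‖z‖ ^ k := by
    have h4 := comp_bigO e.open_target ht he.diff' hs k hO
    have h5 : (fun z => σ (e.symm z) - z) =ᶠ[𝓝 0]
        fun z => -(e (e.symm z) - σ (e.symm z)) := by
      filter_upwards [e.open_target.mem_nhds ht] with z hz
      rw [e.right_inv hz, neg_sub]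
    exact h5.trans_isBigO h4.neg_left
  obtain ⟨c, hc⟩ := h1 (fun z => (σ (e.symm z) - z).1) k
    (analyticAt_fst.fun_comp hφ) ((isBigO_fst_prod' (f' := fun z => σ (e.symm z) - z)).trans hord)
  obtain ⟨d, hd⟩ := h1 (fun z => (σ (e.symm z) - z).2) k
    (analyticAt_snd.fun_comp hφ) ((isBigO_snd_prod' (f' := fun z => σ (e.symm z) - z)).trans hord)
  have hcd : (fun z => σ (e.symm z) - z - hm k c d z) =O[𝓝 0] fun z => ‖z‖ ^ (k + 1) :=
    hc.prod_left hd
  obtain ⟨g, hg, hgO⟩ := h2 k c d hk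
  refine ⟨e.trans g, h3 e g he hg, ?_⟩
  have h4 := comp_bigO e.open_source he.mem he.diff he.zero (k + 1) hgO
  have h5 := comp_bigO e.open_source he.mem he.diff he.zero (k + 1) hcd
  have h6 : (fun y => (e.trans g) y - σ y) =ᶠ[𝓝 0] fun y =>
      (g (e y) - e y - hm k c d (e y)) - (σ (e.symm (e y)) - e y - hm k c d (e y)) := by
    filter_upwards [e.open_source.mem_nhds he.mem] with y hy
    rw [e.left_inv hy, OpenPartialHomeomorph.coe_trans, Function.comp_apply]
    abel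
  exact h6.trans_isBigO (h4.sub h5)

end Pool.Agent.H335.KT
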